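import Mathlib
import Pool.Agent.W2helper67.DZ.E

/-!
# Linear forms in `ζ(k)` and all double zeta values `ζ(k - t, t)` with `t ≤ κ k`

Lower bounds for linear forms `d ζ(k) + ∑_t c_t ζ(k - t, t)` with integer coefficients of bounded size:
for all `t ≤ B`, where `B` may be as large as `κ k`, and (with larger coefficients) for sparse sets of `t`.

The proof reads the linear form as `∑_m m ^ (-k) g_m` with
`g_m = d + ∑_t c_t ∑_{n < m} (m / n) ^ t`. If `g_m = 0` for `p < m < 2 p`, `p` prime, then the top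
coefficient is divisible by `p ^ min (p - 1, deg)`; so the first `m` with `g_m ≠ 0` is at most a constant
times the square root of the logarithm of the height, and this first term dominates the series.
-/

set_option autoImplicit false

namespace Pool.Agent.Results.MP_9206b6_nt.NoSmallRelations

/-- the double zeta value `ζ(p, q) = ∑_{m > n ≥ 1} m ^ (-p) n ^ (-q)` -/
noncomputable def dz (p q : ℕ) : ℝ :=
  ∑' m : ℕ, (∑ n ∈ Finset.Ico 1 (m + 1), 1 / (n : ℝ) ^ q) / ((m + 1 : ℕ) : ℝ) ^ p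

/-- the zeta value `ζ(k) = ∑_{m ≥ 1} m ^ (-k)` -/
noncomputable def zeta (k : ℕ) : ℝ := ∑' m : ℕ, 1 / ((m + 1 : ℕ) : ℝ) ^ k

/-- (1) There is `κ > 0` such that for all integers `B ≥ 1` and `k` with `B ≤ κ k` and all integers
`d, c_1, ..., c_B`, not all zero, of absolute value at most `exp (κ k / B)`:
`|d ζ(k) + ∑_{t ≤ B} c_t ζ(k - t, t)| ≥ min (4 B, √(k / B)) ^ (-k)`.
(2) For every `ε > 0` there is `k0` such that for `k ≥ k0`, all nonempty sets `T` of integers in `[1, B]`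
with `|T| ^ 4 B ≤ k ^ (1 - ε)` and all integers `d, c_t` (`t ∈ T`), not all zero, of absolute value at most
`exp (k ^ (1 - ε) / |T| ^ 2)`: `|d ζ(k) + ∑_{t ∈ T} c_t ζ(k - t, t)| ≥ (|T| ^ 2 k ^ ε) ^ (-k)`. -/
theorem result :
    (∃ κ : ℝ, 0 < κ ∧ ∀ B k : ℕ, 1 ≤ B → (B : ℝ) ≤ κ * k → ∀ (d : ℤ) (c : ℕ → ℤ),
      (d ≠ 0 ∨ ∃ t ∈ Finset.Icc 1 B, c t ≠ 0) →
      |(d : ℝ)| ≤ Real.exp (κ * k / B) →
      (∀ t ∈ Finset.Icc 1 B, |(c t : ℝ)| ≤ Real.exp (κ * k / B)) →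
      ((min (4 * (B : ℝ)) (√(k / B))) ^ k)⁻¹ ≤
        |(d : ℝ) * zeta k + ∑ t ∈ Finset.Icc 1 B, (c t : ℝ) * dz (k - t) t|) ∧
    (∀ ε : ℝ, 0 < ε → ∃ k0 : ℕ, ∀ k : ℕ, k0 ≤ k → ∀ (B : ℕ) (T : Finset ℕ), T.Nonempty →
      (∀ t ∈ T, 1 ≤ t ∧ t ≤ B) → (T.card : ℝ) ^ 4 * B ≤ (k : ℝ) ^ (1 - ε) →
      ∀ (d : ℤ) (c : ℕ → ℤ), (d ≠ 0 ∨ ∃ t ∈ T, c t ≠ 0) →
      |(d : ℝ)| ≤ Real.exp ((k : ℝ) ^ (1 - ε) / (T.card : ℝ) ^ 2) →
      (∀ t ∈ T, |(c t : ℝ)| ≤ Real.exp ((k : ℝ) ^ (1 - ε) / (T.card : ℝ) ^ 2)) →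
      (((T.card : ℝ) ^ 2 * (k : ℝ) ^ ε) ^ k)⁻¹ ≤
        |(d : ℝ) * zeta k + ∑ t ∈ T, (c t : ℝ) * dz (k - t) t|) := by
  refine ⟨?_, fun ε hε => ?_⟩
  · obtain ⟨κ, hκ, h⟩ := Pool.Agent.W2helper67.DZ.star
    exact ⟨κ, hκ, fun B k hB hBk d c hne hd hc => h B k hB hBk d c hne hd hc⟩
  · obtain ⟨k0, h0⟩ := Pool.Agent.W2helper67.DZ.sparse ε hε
    exact ⟨k0, fun k hk B T hT1 hT2 hT3 d c hne hd hc => h0 k hk B T hT1 hT2 hT3 d c hne hd hc⟩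

end Pool.Agent.Results.MP_9206b6_nt.NoSmallRelations
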