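import Mathlib
import Pool.Agent.W2helper67.DZ.I

/-!
# Double zeta values whose first argument is close to a multiple of `k / K`

Fix `K ≥ 2` and let `k = K b + E`. Lower bounds for linear forms in `ζ(k)` and in all the double zeta
values `ζ(u b + i, (K - u) b + E - i)`, `1 ≤ u < K`, `0 ≤ i ≤ E`, with integer coefficients of absolute
value at most `exp h`. For bounded coefficients `E` may be as large as `κ b`.

The proof groups the terms `m ^ (-p) n ^ (-q)` by the value of the integer `m ^ u n ^ (K - u)`. If the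
group of the value `p ^ u`, `p` prime, has sum zero for the first ray `u` that occurs, then `1 / p` is a
root of a polynomial of degree at most `E` with coefficients at most `exp h`; by the size of the
coefficients and by the number of roots there is a prime `p` of size
`O (1 + min h ((E + 1) log (E + 2)))` for which it is not. The first group with a nonzero sum dominates.
-/

set_option autoImplicit false

namespace Pool.Agent.Results.MP_9206b6_nt.RationalRays

/-- the double zeta value `ζ(p, q) = ∑_{m > n ≥ 1} m ^ (-p) n ^ (-q)` -/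
noncomputable def dz (p q : ℕ) : ℝ :=
  ∑' m : ℕ, (∑ n ∈ Finset.Ico 1 (m + 1), 1 / (n : ℝ) ^ q) / ((m + 1 : ℕ) : ℝ) ^ p

/-- the zeta value `ζ(k) = ∑_{m ≥ 1} m ^ (-k)` -/
noncomputable def zeta (k : ℕ) : ℝ := ∑' m : ℕ, 1 / ((m + 1 : ℕ) : ℝ) ^ k

/-- For every `K ≥ 2` there is `κ > 0` such that for all integers `b, E ≥ 0`, all real `h ≥ 0` and
`w = 1 + min h ((E + 1) log (E + 2))` with `w ^ (K - 1) (h + (E + 1) log (1 + w)) ≤ κ b`, and all integers
`d` and `c_{u i}` (`1 ≤ u < K`, `0 ≤ i ≤ E`), not all zero, of absolute value at most `exp h`: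
`|d ζ(K b + E) + ∑_{u, i} c_{u i} ζ(u b + i, (K - u) b + E - i)| ≥ (w / κ) ^ (-(K - 1) b)`. -/
theorem result (K : ℕ) (hK : 2 ≤ K) : ∃ κ : ℝ, 0 < κ ∧ ∀ (b E : ℕ) (h w : ℝ), 0 ≤ h →
    w = 1 + min h ((E + 1) * Real.log (E + 2)) →
    w ^ (K - 1) * (h + (E + 1) * Real.log (1 + w)) ≤ κ * b → ∀ (d : ℤ) (c : ℕ → ℕ → ℤ),
    (d ≠ 0 ∨ ∃ u i : ℕ, 1 ≤ u ∧ u < K ∧ i ≤ E ∧ c u i ≠ 0) → |(d : ℝ)| ≤ Real.exp h →
    (∀ u i : ℕ, 1 ≤ u → u < K → i ≤ E → |(c u i : ℝ)| ≤ Real.exp h) →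
    ((κ⁻¹ * w) ^ ((K - 1) * b))⁻¹ ≤
      |(d : ℝ) * zeta (K * b + E) + ∑ u ∈ Finset.Ico 1 K, ∑ i ∈ Finset.range (E + 1),
        (c u i : ℝ) * dz (u * b + i) ((K - u) * b + E - i)| := by
  obtain ⟨κ, hκ, h⟩ := Pool.Agent.W2helper67.DZ.rays K hK
  exact ⟨κ, hκ, fun b E h' w h1 h2 h3 d c h4 h5 h6 => h b E h' w h1 h2 h3 d c h4 h5 h6⟩

end Pool.Agent.Results.MP_9206b6_nt.RationalRays
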