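import Mathlib
import Pool.Agent.W2helper67.CZ.E

/-!
# Relations between double zeta values of the same weight are spread out at their beginning

Consider a linear relation between `ζ(k)` and double zeta values `ζ(s, k - s)` with real coefficients, of
any weight `k`. Let `n` be the smallest first argument. If the coefficients of the terms with
`n ≤ s ≤ R n` are in a fixed finite set of real algebraic numbers, the others are at most `C ^ n`, and `n`
is large, then the first arguments `s` in `[n, R n]` cannot be covered by a bounded number of intervals of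
length `δ n`. Here `R` depends only on the finite set and on `C`.

The proof is by contradiction with germs of sequences. In a sequence of counterexamples with `δ` tending
to zero the sum of the terms `m ^ (-s) n ^ (k - s)` with fixed `(m, n)` and with `s` in one short interval is
a character (a product of powers of primes with exponents proportional to the size) times a coefficient of
negligible height. The subspace theorem for such coefficients (starting files) separates the terms
with a given exponent of a prime `q`. The part with the exponent `1` consists of the terms with `m = q` and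
first arguments asymptotic to the smallest one, and of smaller terms; and by its size it is not zero.
-/

set_option autoImplicit false

namespace Pool.Agent.Results.MP_9206b6_nt.SpreadSupport

/-- the double zeta value `ζ(p, q) = ∑_{m > n ≥ 1} m ^ (-p) n ^ (-q)` -/
noncomputable def dz (p q : ℕ) : ℝ :=
  ∑' m : ℕ, (∑ n ∈ Finset.Ico 1 (m + 1), 1 / (n : ℝ) ^ q) / ((m + 1 : ℕ) : ℝ) ^ p

/-- the zeta value `ζ(k) = ∑_{m ≥ 1} m ^ (-k)` -/
noncomputable def zeta (k : ℕ) : ℝ := ∑' m : ℕ, 1 / ((m + 1 : ℕ) : ℝ) ^ k

/-- For every finite set `Λ` of real algebraic numbers and every `C ≥ 1` there is `R ≥ 1` such that for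
every `N` there are `δ > 0` and `n0` with the following property. Let `n ≥ n0`, let `k` be an integer, `S` a
finite set of integers `s` with `n ≤ s < k` that contains `n`, let `c_s` (`s ∈ S`) be real numbers of
absolute value at most `C ^ n` with `c_n ≠ 0`, and let `d` be zero or a real number with `|d| ≥ 1 / C`.
If `c_s ∈ Λ` for `s ≤ R n`, and the `s ∈ S` with `s ≤ R n` are covered by `N` intervals of length `δ n`, then
`|∑ c_s ζ(s, k - s) + d ζ(k)| > exp (-R n)`. -/
theorem result (Λ : Finset ℝ) (hΛ : ∀ a ∈ Λ, IsAlgebraic ℚ a) (C : ℝ) (hC : 1 ≤ C) :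
    ∃ R : ℝ, 1 ≤ R ∧ ∀ N : ℕ, ∃ δ : ℝ, 0 < δ ∧ ∃ n0 : ℕ, ∀ n k : ℕ, n0 ≤ n → ∀ S T : Finset ℕ,
      T.card ≤ N → n ∈ S → (∀ s ∈ S, n ≤ s ∧ s < k) → ∀ (c : ℕ → ℝ) (d : ℝ), c n ≠ 0 →
      (∀ s ∈ S, (s : ℝ) ≤ R * n → c s ∈ Λ ∧ ∃ t ∈ T, t ≤ s ∧ (s : ℝ) ≤ t + δ * n) →
      (∀ s ∈ S, |c s| ≤ C ^ n) → (d = 0 ∨ C⁻¹ ≤ |d|) →
      Real.exp (-(R * n)) < |∑ s ∈ S, c s * dz s (k - s) + d * zeta k| :=
  Pool.Agent.W2helper67.CZ.spread Λ hΛ C hC

end Pool.Agent.Results.MP_9206b6_nt.SpreadSupport
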